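import Pool.Agent.Helper57.MT.Goals

/-!
# Packet MC2-ZP: pointwise bound for the product of the survival probabilities
-/

set_option autoImplicit false

open Finset Filter Topology

open scoped Classical

namespace Pool.Agent.Helper69.MT

open Pool.Agent.Helper57.MT

/-- removing one prime from the product costs at most a factor two -/
theorem erase_le (T : Finset ℕ) (p : ℕ) (hT : ∀ l ∈ T, l.Prime) :
    ∏ l ∈ T.erase p, (1 - 1 / (l : ℝ)) ≤ 2 * ∏ l ∈ T, (1 - 1 / (l : ℝ)) := by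
  have hnn : ∀ l ∈ T, (1 : ℝ) / 2 ≤ 1 - 1 / (l : ℝ) := by
    intro l hl
    have h2 : (2 : ℝ) ≤ l := by exact_mod_cast (hT l hl).two_le
    have : 1 / (l : ℝ) ≤ 1 / 2 := one_div_le_one_div_of_le (by norm_num) h2
    linarith
  have hpos : 0 ≤ ∏ l ∈ T.erase p, (1 - 1 / (l : ℝ)) :=
    Finset.prod_nonneg fun l hl => by
      have := hnn l (Finset.mem_of_mem_erase hl)
      linarith
  by_cases hp : p ∈ T
  · rw [← Finset.mul_prod_erase T _ hp]
    have := hnn p hp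
    nlinarith
  · rw [Finset.erase_eq_of_notMem hp] at hpos ⊢
    linarith

/-- the number of large primes dividing a product of differences -/
theorem card_le (H B : Finset ℕ) (K L Y h : ℕ) (hY : H ⊆ Icc 1 Y) (hK : H.card = K)
    (hh : h ∈ Icc 1 Y) (hhH : h ∉ H) (hB : ∀ l ∈ B, l.Prime ∧ L ≤ l ∧ Ht H l h) :
    L ^ B.card ≤ Y ^ K := by
  have hne : ∀ i ∈ H, ((h : ℤ) - i).natAbs ≠ 0 := by
    intro i hi h0
    have : (h : ℤ) - i = 0 := Int.natAbs_eq_zero.1 h0
    have h1 : (h : ℤ) = i := by linarith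
    have h2 : h = i := by exact_mod_cast h1
    exact hhH (h2 ▸ hi)
  have h1 : L ^ B.card ≤ ∏ l ∈ B, l := by
    rw [← Finset.prod_const]
    exact Finset.prod_le_prod' fun l hl => (hB l hl).2.1
  have h2 : ∏ l ∈ B, l ∣ ∏ i ∈ H, ((h : ℤ) - i).natAbs := by
    apply Finset.prod_primes_dvd
    · intro l hl
      exact (hB l hl).1.prime
    · intro l hl
      obtain ⟨i, hi, hc⟩ := (hB l hl).2.2
      refine Dvd.dvd.trans ?_ (Finset.dvd_prod_of_mem _ hi)
      have h3 : (l : ℤ) ∣ (i : ℤ) - h := (Nat.modEq_iff_dvd).1 hc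
      have h4 : (l : ℤ) ∣ (h : ℤ) - i := by
        have := (dvd_neg).2 h3
        simpa using this
      exact Int.natCast_dvd.1 h4
  have h3 : ∏ i ∈ H, ((h : ℤ) - i).natAbs ≠ 0 := Finset.prod_ne_zero_iff.2 hne
  have h4 : ∏ l ∈ B, l ≤ ∏ i ∈ H, ((h : ℤ) - i).natAbs := Nat.le_of_dvd (Nat.pos_of_ne_zero h3) h2
  have h5 : ∏ i ∈ H, ((h : ℤ) - i).natAbs ≤ ∏ _i ∈ H, Y := by
    refine Finset.prod_le_prod' fun i hi => ?_
    have a1 := Finset.mem_Icc.1 (hY hi)
    have a2 := Finset.mem_Icc.1 hh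
    omega
  rw [Finset.prod_const, hK] at h5
  exact h1.trans (h4.trans h5)

/-- the factors of the primes above `L` are together at most two -/
theorem tail_le (H T : Finset ℕ) (K L Y h : ℕ) (lw : ℝ) (hY : H ⊆ Icc 1 Y) (hK : H.card = K)
    (hh : h ∈ Icc 1 Y) (hhH : h ∉ H) (hT : ∀ l ∈ T, l.Prime ∧ L ≤ l)
    (hL : Real.exp (12 * K) ≤ L) (hL2 : lw ≤ 2 * L) (hlY : Real.log Y ≤ 2 * lw)
    (hK1 : 1 ≤ K) :
    ∏ l ∈ T, (if Ht H l h then 1 + 2 / (l : ℝ) else 1) ≤ 2 := by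
  have hKr : (1 : ℝ) ≤ K := by exact_mod_cast hK1
  have hLpos : (0 : ℝ) < L := lt_of_lt_of_le (Real.exp_pos _) hL
  have hlogL : 12 * (K : ℝ) ≤ Real.log L := by
    rw [← Real.log_exp (12 * (K : ℝ))]
    exact Real.log_le_log (Real.exp_pos _) hL
  rw [← Finset.prod_filter]
  set B := T.filter (fun l => Ht H l h) with hBdef
  have hB : ∀ l ∈ B, l.Prime ∧ L ≤ l ∧ Ht H l h := by
    intro l hl
    rw [hBdef, Finset.mem_filter] at hl
    exact ⟨(hT l hl.1).1, (hT l hl.1).2, hl.2⟩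
  have hc := card_le H B K L Y h hY hK hh hhH hB
  have hYpos : 0 < Y := by
    have := Finset.mem_Icc.1 hh
    omega
  have hYr : (0 : ℝ) < Y := by exact_mod_cast hYpos
  have hcr : (L : ℝ) ^ B.card ≤ (Y : ℝ) ^ K := by exact_mod_cast hc
  have hlog : B.card * Real.log L ≤ K * Real.log Y := by
    have := Real.log_le_log (by positivity) hcr
    rwa [Real.log_pow, Real.log_pow] at this
  have hbound : B.card * (12 * (K : ℝ)) ≤ K * (4 * L) := by
    have a1 : (B.card : ℝ) * (12 * K) ≤ B.card * Real.log L :=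
      mul_le_mul_of_nonneg_left hlogL (by positivity)
    have a2 : (K : ℝ) * Real.log Y ≤ K * (4 * L) :=
      mul_le_mul_of_nonneg_left (by linarith) (by positivity)
    linarith
  have hcard : (B.card : ℝ) * 3 ≤ L := by
    have : (K : ℝ) * ((B.card : ℝ) * 3) ≤ K * L := by linarith
    exact le_of_mul_le_mul_left this (by linarith)
  have hexp : ∏ l ∈ B, (1 + 2 / (l : ℝ)) ≤ ∏ _l ∈ B, Real.exp (2 / (L : ℝ)) := by
    refine Finset.prod_le_prod (fun l _ => by positivity) fun l hl => ?_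
    have hl1 : (L : ℝ) ≤ l := by exact_mod_cast (hB l hl).2.1
    have : 2 / (l : ℝ) ≤ 2 / L := div_le_div_of_nonneg_left (by norm_num) hLpos hl1
    have := Real.add_one_le_exp (2 / (L : ℝ))
    linarith
  refine hexp.trans ?_
  rw [Finset.prod_const, ← Real.exp_nat_mul]
  have h23 : (B.card : ℝ) * (2 / L) ≤ 2 / 3 := by
    rw [mul_div_assoc', div_le_iff₀ hLpos]
    linarith
  have hl2 : (2 : ℝ) / 3 ≤ Real.log 2 := by
    have := Real.log_two_gt_d9
    linarith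
  calc Real.exp ((B.card : ℝ) * (2 / L)) ≤ Real.exp (Real.log 2) :=
        Real.exp_le_exp.2 (h23.trans hl2)
    _ = 2 := Real.exp_log (by norm_num)

/-- PACKET MC2-ZP -/
theorem zp (hSV : StmtSV1) : StmtZP := by
  intro K hK
  have hKr : (1 : ℝ) ≤ K := by exact_mod_cast hK
  have hlt : Tendsto (fun w : ℕ => Real.log (w : ℝ)) atTop atTop :=
    Real.tendsto_log_atTop.comp tendsto_natCast_atTop_atTop
  have e1 : ∀ᶠ w : ℕ in atTop, Real.exp (12 * K) + (K : ℝ) ^ 2 + 2 ≤ Real.log w :=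
    hlt.eventually_ge_atTop _
  have e2 : ∀ᶠ w : ℕ in atTop, Real.log (w : ℝ) ^ 4 ≤ w := by
    have h1 : (fun x : ℝ => Real.log x ^ 4) =o[atTop] (fun x : ℝ => x) :=
      Real.isLittleO_pow_log_id_atTop
    have h2 := h1.bound (c := 1) one_pos
    have h3 := tendsto_natCast_atTop_atTop (R := ℝ) |>.eventually h2
    filter_upwards [h3, eventually_ge_atTop 1] with w hw hw1
    rw [Real.norm_eq_abs, Real.norm_eq_abs, one_mul] at hw
    have : (0 : ℝ) ≤ w := by positivity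
    rw [abs_of_nonneg this] at hw
    exact (le_abs_self _).trans hw
  obtain ⟨w0, hw0⟩ := eventually_atTop.1 (e1.and e2)
  refine ⟨w0, fun w p Y t hw hp hY htw htl H hHY hHK had h hh hhH => ?_⟩
  obtain ⟨hw1, hw2⟩ := hw0 w hw
  have hexp0 := Real.exp_pos (12 * (K : ℝ))
  set lw := Real.log (w : ℝ) with hlw
  have hlw2 : 2 ≤ lw := by nlinarith
  have hKlw : (K : ℝ) ^ 2 ≤ lw := by linarith
  have hlw4 : lw ≤ lw ^ 4 := by
    have : (1 : ℝ) ≤ lw := by linarith
    calc lw = lw ^ 1 := (pow_one _).symm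
      _ ≤ lw ^ 4 := pow_le_pow_right₀ this (by norm_num)
  have hKt : K ^ 2 ≤ t := by
    have : ((K ^ 2 : ℕ) : ℝ) ≤ t := by
      push_cast
      linarith
    exact_mod_cast this
  set L := ⌊lw⌋₊ with hLdef
  have hLle : (L : ℝ) ≤ lw := Nat.floor_le (by linarith)
  have hLgt : lw < L + 1 := Nat.lt_floor_add_one lw
  have hLt : L ≤ t := by
    have : (L : ℝ) ≤ t := by linarith
    exact_mod_cast this
  have hwpos : (0 : ℝ) < w := by
    have hw' : (0 : ℝ) ≤ w := by positivity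
    rcases hw'.lt_or_eq with h0 | h0
    · exact h0
    · exfalso
      rw [hlw, ← h0, Real.log_zero] at hlw2
      linarith
  have hYpos : 0 < Y := by
    have := Finset.mem_Icc.1 hh
    omega
  have hYr : (0 : ℝ) < Y := by exact_mod_cast hYpos
  have hlogY : Real.log Y ≤ 2 * lw := by
    have h1 : (Y : ℝ) ≤ (w : ℝ) ^ 2 := by
      calc (Y : ℝ) ≤ w * lw ^ 4 := hY
        _ ≤ w * w := mul_le_mul_of_nonneg_left hw2 hwpos.le
        _ = (w : ℝ) ^ 2 := by ring
    have h2 := Real.log_le_log hYr h1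
    rw [Real.log_pow] at h2
    exact_mod_cast h2
  have hHne : H.Nonempty := Finset.card_pos.1 (by omega)
  set g : ℕ → ℝ := fun l => if Ht H l h then 1 + 2 / (l : ℝ) else 1 with hg
  have hg1 : ∀ l, 1 ≤ g l := by
    intro l
    simp only [hg]
    split_ifs
    · have : (0 : ℝ) ≤ 2 / (l : ℝ) := by positivity
      linarith
    · exact le_refl _
  set T := (Ioc (K ^ 2) t).filter Nat.Prime with hTdef
  have hTp : ∀ l ∈ T, l.Prime := fun l hl => (Finset.mem_filter.1 hl).2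
  -- splitting
  have hsplit : ((Icc 1 t).filter Nat.Prime).erase p
      = ((Icc 1 (K ^ 2)).filter Nat.Prime).erase p ∪ T.erase p := by
    ext l
    simp only [hTdef, Finset.mem_erase, Finset.mem_filter, Finset.mem_union, Finset.mem_Icc,
      Finset.mem_Ioc]
    constructor
    · rintro ⟨a, ⟨b, c⟩, d⟩
      by_cases hl : l ≤ K ^ 2
      · exact Or.inl ⟨a, ⟨b, hl⟩, d⟩
      · exact Or.inr ⟨a, ⟨by omega, c⟩, d⟩
    · rintro (⟨a, ⟨b, c⟩, d⟩ | ⟨a, ⟨b, c⟩, d⟩)
      · exact ⟨a, ⟨b, by omega⟩, d⟩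
      · exact ⟨a, ⟨by omega, c⟩, d⟩
  have hdisj : Disjoint (((Icc 1 (K ^ 2)).filter Nat.Prime).erase p) (T.erase p) := by
    rw [Finset.disjoint_left]
    intro l h1 h2
    simp only [hTdef, Finset.mem_erase, Finset.mem_filter, Finset.mem_Icc, Finset.mem_Ioc] at h1 h2
    omega
  rw [hsplit, Finset.prod_union hdisj]
  have hFs : ∏ l ∈ ((Icc 1 (K ^ 2)).filter Nat.Prime).erase p, sv H l h = Fs H (K ^ 2) p h := rfl
  rw [hFs]
  have hFs0 : 0 ≤ Fs H (K ^ 2) p h := by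
    refine Finset.prod_nonneg fun l hl => ?_
    have hlp : l.Prime := (Finset.mem_filter.1 (Finset.mem_of_mem_erase hl)).2
    exact ((hSV H l hlp hHne (had l hlp)).1 h).1
  -- the part with `l > K²`
  have hone : ∀ l ∈ T, 0 ≤ 1 - 1 / (l : ℝ) := by
    intro l hl
    have h2 : (1 : ℝ) ≤ l := by exact_mod_cast (hTp l hl).one_lt.le
    have : 1 / (l : ℝ) ≤ 1 := (div_le_one (by linarith)).2 h2
    linarith
  have h1 : ∏ l ∈ T.erase p, sv H l h ≤ ∏ l ∈ T.erase p, ((1 - 1 / (l : ℝ)) * g l) := by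
    refine Finset.prod_le_prod (fun l hl => ?_) fun l hl => ?_
    · have hlp := hTp l (Finset.mem_of_mem_erase hl)
      exact ((hSV H l hlp hHne (had l hlp)).1 h).1
    · have hlp := hTp l (Finset.mem_of_mem_erase hl)
      exact (hSV H l hlp hHne (had l hlp)).2.2.2.1 h
  rw [Finset.prod_mul_distrib] at h1
  have h2 := erase_le T p hTp
  have h3 : ∏ l ∈ T.erase p, g l ≤ ∏ l ∈ T, g l :=
    Finset.prod_le_prod_of_subset_of_one_le (Finset.erase_subset _ _)
      (fun l _ => le_trans zero_le_one (hg1 l)) fun l _ _ => hg1 l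
  have h4 : ∏ l ∈ T, g l ≤ (∏ l ∈ (Ioc (K ^ 2) L).filter Nat.Prime, g l) * 2 := by
    rw [← Finset.prod_filter_mul_prod_filter_not T (fun l => l ≤ L)]
    have hTL : T.filter (fun l => l ≤ L) = (Ioc (K ^ 2) L).filter Nat.Prime := by
      ext l
      simp only [hTdef, Finset.mem_filter, Finset.mem_Ioc]
      constructor
      · rintro ⟨⟨⟨a, b⟩, c⟩, d⟩
        exact ⟨⟨a, d⟩, c⟩
      · rintro ⟨⟨a, d⟩, c⟩
        exact ⟨⟨⟨a, by omega⟩, c⟩, d⟩
    rw [hTL]
    refine mul_le_mul_of_nonneg_left ?_ (Finset.prod_nonneg fun l _ => by linarith [hg1 l])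
    refine tail_le H _ K L Y h lw hHY hHK hh hhH ?_ ?_ ?_ hlogY hK
    · intro l hl
      rw [Finset.mem_filter] at hl
      exact ⟨hTp l hl.1, by omega⟩
    · nlinarith
    · nlinarith
  have hP0 : 0 ≤ ∏ l ∈ T, (1 - 1 / (l : ℝ)) := Finset.prod_nonneg hone
  have hPe0 : 0 ≤ ∏ l ∈ T.erase p, (1 - 1 / (l : ℝ)) :=
    Finset.prod_nonneg fun l hl => hone l (Finset.mem_of_mem_erase hl)
  have hG0 : 0 ≤ ∏ l ∈ T.erase p, g l := Finset.prod_nonneg fun l _ => by linarith [hg1 l]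
  have h5 : ∏ l ∈ T.erase p, sv H l h
      ≤ (2 * ∏ l ∈ T, (1 - 1 / (l : ℝ))) *
        ((∏ l ∈ (Ioc (K ^ 2) L).filter Nat.Prime, g l) * 2) :=
    h1.trans (mul_le_mul h2 (h3.trans h4) hG0 (by positivity))
  calc Fs H (K ^ 2) p h * ∏ l ∈ T.erase p, sv H l h
      ≤ Fs H (K ^ 2) p h * ((2 * ∏ l ∈ T, (1 - 1 / (l : ℝ))) *
        ((∏ l ∈ (Ioc (K ^ 2) L).filter Nat.Prime, g l) * 2)) :=
        mul_le_mul_of_nonneg_left h5 hFs0
    _ = 4 * (∏ l ∈ T, (1 - 1 / (l : ℝ))) *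
      (Fs H (K ^ 2) p h * ∏ l ∈ (Ioc (K ^ 2) L).filter Nat.Prime, g l) := by ring

end Pool.Agent.Helper69.MT
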